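import Pool.Agent.H95.FL.Claims

/-! Branch and bound data, generated. -/

set_option maxRecDepth 100000

namespace H95FL

open H41FT H41FT.Tr

theorem AA_0 : Hd QAA 79228162514264400925413710233 63331869759898 79228162514264429072911381299
    63331869759898 79228162514264407962288128000 70368744177664 :=
  okAA (s2 (s0 (s1 (s1 lf lf) (s1 lf (s0 lf lf))) (s1 (s1 lf lf) (s2 (s1 lf (s0 lf lf)) (s1 lf
    (s0 lf lf))))) (s1 (s0 (s1 lf lf) (s1 lf lf)) (s0 (s1 lf lf) (s1 (s2 lf lf) (s2 (s0 lf lf)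
    (s0 lf lf))))))
    ⟨79228162514264400925413710233, 63331869759898, 79228162514264429072911381299,
    63331869759898, 79228162514264407962288128000, 70368744177664⟩ (by decide +kernel)

theorem AA_1 : Hd QAA 79228162514264369259478830284 31665934879949 79228162514264524070716021146
    31665934879949 79228162514264372777916039168 35184372088832 :=
  okAA (s2 (s0 (s1 lf (s0 lf lf)) (s1 lf (s2 (s0 lf lf) (s1 lf lf)))) (s0 (s1 lf (s0 lf lf)) (s1
    lf (s1 lf lf))))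
    ⟨79228162514264369259478830284, 31665934879949, 79228162514264524070716021146,
    31665934879949, 79228162514264372777916039168, 35184372088832⟩ (by decide +kernel)

theorem AA_2 : Hd QAA 79228162514264369259478830284 31665934879949 79228162514264587402585781044
    31665934879949 79228162514264355185729994752 17592186044416 :=
  okAA (s0 (s1 (s2 (s0 (s1 lf lf) (s1 lf lf)) (s0 (s1 lf lf) (s1 lf lf))) (s2 (s0 (s1 (s2 (s0
    (s1 lf (sk 1)) (s1 lf lf)) (s0 (s1 lf (sk 1)) (s1 lf lf))) (sk 1)) (s1 (s2 (s0 (s1 lf lf)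
    (s1 lf lf)) (s0 (s1 lf lf) (s1 lf lf))) (s2 (s0 (s1 (s2 (s0 (sk 1) (sk 0)) (s0 (sk 1) (sk
    0))) (sk 0)) (sk 0)) (s0 (s1 (s2 (s0 (sk 1) (sk 0)) (s0 (sk 1) (sk 0))) (sk 0)) (sk 0)))))
    (s0 (s1 (s2 (s0 (s1 lf (sk 1)) (s1 lf lf)) (s0 (s1 lf (sk 1)) (s1 lf lf))) (sk 1)) (s1 (s2
    (s0 (s1 lf lf) (s1 lf lf)) (s0 (s1 lf lf) (s1 lf lf))) (s2 (s0 (s1 (s2 (s0 (sk 1) (sk 0))
    (s0 (sk 1) (sk 0))) (sk 0)) (sk 0)) (s0 (s1 (s2 (s0 (sk 1) (sk 0)) (sk 1)) (sk 0)) (sk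
    0))))))) (s1 (s2 (s0 (s1 lf lf) (s1 lf lf)) (s0 (s1 lf lf) (s1 lf lf))) (s2 (s0 (s1 (s2 (s0
    (s1 lf (sk 0)) (sk 0)) (s1 lf (sk 0))) (sk 0)) (sk 0)) (s0 (s1 (s2 (s1 lf (sk 0)) (s1 lf (sk
    0))) (sk 0)) (sk 0)))))
    ⟨79228162514264369259478830284, 31665934879949, 79228162514264587402585781044,
    31665934879949, 79228162514264355185729994752, 17592186044416⟩ (by decide +kernel)

theorem AA_3 : Hd QAA 79228162514264369259478830284 31665934879949 79228162514264587402585781044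
    31665934879949 79228162514264390370102083584 17592186044416 :=
  okAA (s0 (s1 (s2 (s0 (s1 lf lf) (s1 lf lf)) (s0 (s1 lf lf) (s1 lf lf))) (s2 (s0 (s1 (s2 (s0
    (s1 lf (sk 1)) (s1 lf lf)) (s0 (s1 lf (sk 1)) (s1 lf lf))) (sk 1)) (s1 (s2 (s0 (s1 lf lf)
    (s1 lf lf)) (s0 (s1 lf lf) (s1 lf lf))) (s2 (s0 (sk 1) (sk 0)) (s0 (sk 1) (sk 0))))) (s0 (s1
    (s2 (s0 (s1 lf (sk 1)) (s1 lf lf)) (s0 (s1 lf (sk 1)) (s1 lf lf))) (sk 1)) (s1 (s2 (s0 (s1
    lf lf) (s1 lf lf)) (s0 (s1 lf lf) (s1 lf lf))) (s2 (s0 (sk 1) (sk 0)) (s0 (sk 1) (sk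
    0))))))) (s1 (s2 (s0 (s1 lf lf) (s1 lf lf)) (s0 (s1 lf lf) (s1 lf lf))) (s2 (s0 (s1 (s2 (s1
    lf (sk 0)) (s1 lf (sk 0))) (sk 0)) (sk 0)) (s0 (s1 (s2 (s1 lf (sk 0)) (s1 lf (sk 0))) (sk
    0)) (sk 0)))))
    ⟨79228162514264369259478830284, 31665934879949, 79228162514264587402585781044,
    31665934879949, 79228162514264390370102083584, 17592186044416⟩ (by decide +kernel)

theorem AA_4 : Hd QAA 79228162514264432591348590182 31665934879949 79228162514264555736650901095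
    63331869759898 79228162514264372777916039168 35184372088832 :=
  okAA (s1 (s2 (s1 (s0 lf lf) (s0 (s2 (s1 lf lf) (s1 lf lf)) (s2 (s0 lf (sk 0)) (s0 lf (sk
    0))))) (s0 (s1 lf (s2 (s1 lf lf) (s1 lf lf))) (s1 lf (s2 (s0 lf (sk 0)) (s0 lf (sk 0))))))
    (s2 (s0 (s1 (s2 (s1 lf (sk 0)) (s1 lf (sk 0))) (sk 0)) (sk 0)) (s0 (s1 (s2 (s1 lf (sk 0))
    (s1 lf (sk 0))) (sk 0)) (sk 0))))
    ⟨79228162514264432591348590182, 31665934879949, 79228162514264555736650901095,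
    63331869759898, 79228162514264372777916039168, 35184372088832⟩ (by decide +kernel)

theorem AA_5 : Hd QAA 79228162514264369259478830284 31665934879949 79228162514264524070716021146
    31665934879949 79228162514264443146660216832 35184372088832 :=
  okAA (s2 (s0 (s1 lf lf) (s1 lf (s1 lf lf))) (s0 (s1 lf lf) (s1 lf (s1 lf lf))))
    ⟨79228162514264369259478830284, 31665934879949, 79228162514264524070716021146,
    31665934879949, 79228162514264443146660216832, 35184372088832⟩ (by decide +kernel)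

theorem AA_6 : Hd QAA 79228162514264369259478830284 31665934879949 79228162514264587402585781044
    31665934879949 79228162514264425554474172416 17592186044416 :=
  okAA (s0 (s1 (s2 (s0 (s1 lf lf) (s1 lf lf)) (s0 (s1 lf lf) (s1 lf lf))) (s2 (s0 (s1 (s2 (s0
    (s1 lf (sk 1)) (s1 lf (sk 1))) (s0 (s1 lf (sk 1)) (s1 lf (sk 1)))) (sk 1)) (s1 (s2 (s0 (s1
    lf lf) (s1 lf lf)) (s0 (s1 lf lf) (s1 lf lf))) (s2 (s0 (sk 1) (sk 0)) (s0 (sk 1) (sk 0)))))
    (s0 (s1 (s2 (s0 (s1 lf (sk 1)) (s1 lf (sk 1))) (s0 (s1 lf (sk 1)) (s1 lf (sk 1)))) (sk 1))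
    (s1 (s2 (s0 (s1 lf lf) (s1 lf lf)) (s0 (s1 lf lf) (s1 lf lf))) (s2 (s0 (sk 1) (sk 0)) (sk
    1)))))) (s1 (s2 (s0 (s1 lf lf) (s1 lf lf)) (s0 (s1 lf lf) (s1 lf lf))) (s2 (s0 (s1 (s2 (s1
    lf (sk 0)) (s1 lf (sk 0))) (sk 0)) (sk 0)) (s0 (s1 (s2 (s0 (s1 lf (sk 0)) (sk 0)) (s0 (s1 lf
    (sk 0)) (sk 0))) (sk 0)) (sk 0)))))
    ⟨79228162514264369259478830284, 31665934879949, 79228162514264587402585781044,
    31665934879949, 79228162514264425554474172416, 17592186044416⟩ (by decide +kernel)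

end H95FL
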