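import Pool.Agent.H95.FL.Claims

/-! Branch and bound data, generated. -/

set_option maxRecDepth 100000

namespace H95FL

open H41FT H41FT.Tr

theorem AA_7 : Hd QAA 79228162514264369259478830284 31665934879949 79228162514264587402585781044
    31665934879949 79228162514264460738846261248 17592186044416 :=
  okAA (s0 (s1 (s2 (s0 (s1 lf lf) (s1 lf lf)) (s0 (s1 lf lf) (s1 lf lf))) (s2 (s0 (s1 (s2 (s0
    (s1 lf (sk 1)) (s1 lf (sk 1))) (s0 (s1 lf (sk 1)) (s1 lf (sk 1)))) (sk 1)) (s1 (s2 (s0 (s1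
    lf lf) (s1 lf lf)) (s0 (s1 lf lf) (s1 lf lf))) (sk 1))) (s0 (s1 (s2 (s0 (s1 lf (sk 1)) (s1
    lf (sk 1))) (s0 (s1 lf (sk 1)) (s1 lf (sk 1)))) (sk 1)) (s1 (s2 (s0 (s1 lf lf) (s1 lf lf))
    (s0 (s1 lf lf) (s1 lf lf))) (sk 1))))) (s1 (s2 (s0 (s1 lf lf) (s1 lf lf)) (s0 (s1 lf lf) (s1
    lf lf))) (s2 (s0 (s1 (s2 (s0 (s1 lf (sk 0)) (sk 0)) (s0 (s1 lf (sk 0)) (sk 0))) (sk 0)) (sk
    0)) (s0 (s1 (s2 (s0 (s1 lf (sk 0)) (sk 0)) (s0 (s1 lf (sk 0)) (sk 0))) (sk 0)) (sk 0)))))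
    ⟨79228162514264369259478830284, 31665934879949, 79228162514264587402585781044,
    31665934879949, 79228162514264460738846261248, 17592186044416⟩ (by decide +kernel)

theorem AA_8 : Hd QAA 79228162514264432591348590182 31665934879949 79228162514264555736650901095
    63331869759898 79228162514264443146660216832 35184372088832 :=
  okAA (s1 (s2 (s0 (s1 lf (s2 (s1 lf lf) (s1 lf lf))) (s1 (s1 lf lf) (s2 (s0 lf (sk 0)) (s0 (s1
    lf (sk 0)) (sk 0))))) (s0 (s1 lf (s2 (s1 lf lf) (s1 lf lf))) (s1 (s1 lf lf) (s2 (s0 (s1 lf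
    (sk 0)) (sk 0)) (s0 (s1 lf (sk 0)) (sk 0)))))) (s2 (s0 (s1 (s2 (s0 (s1 lf (sk 0)) (sk 0))
    (s0 (s1 lf (sk 0)) (sk 0))) (sk 0)) (sk 0)) (s0 (s1 (s2 (s0 (s1 lf (sk 0)) (sk 0)) (s0 (s1
    lf (sk 0)) (sk 0))) (sk 0)) (sk 0))))
    ⟨79228162514264432591348590182, 31665934879949, 79228162514264555736650901095,
    63331869759898, 79228162514264443146660216832, 35184372088832⟩ (by decide +kernel)

theorem AA_9 : Hd QAA 79228162514264527589153230029 63331869759898 79228162514264492404781141197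
    126663739519796 79228162514264407962288128000 70368744177664 :=
  okAA (s1 (s2 (s0 (s1 (s1 (s0 lf lf) (s0 lf lf)) (s2 (s1 (s0 lf lf) (s0 lf lf)) (s1 (s0 lf lf)
    (s0 lf lf)))) (s1 (s1 (s0 (s1 lf lf) (s2 (s1 lf lf) (s1 lf lf))) (s0 (s2 lf lf) (s2 (s0 lf
    (sk 0)) (s0 lf (sk 0))))) (s2 (s0 (s1 lf (sk 0)) (sk 0)) (s0 (s1 lf (sk 0)) (sk 0))))) (s0
    (s1 (s1 (s0 lf lf) (s0 lf lf)) (s2 (s1 (s0 lf lf) (s0 lf lf)) (s1 (s0 lf lf) (s0 lf lf))))
    (s1 (s1 (s0 (s1 lf lf) (s2 (s1 lf lf) (s1 lf lf))) (s0 (s2 lf lf) (s2 (s0 lf (sk 0)) lf)))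
    (s2 (s1 (s0 lf (sk 0)) (sk 0)) (s1 (s0 lf (sk 0)) (sk 0)))))) (s2 (s0 (s1 (s2 (s0 (s1 lf (sk
    0)) (sk 0)) (s0 (s1 (s0 lf (sk 0)) (sk 0)) (sk 0))) (sk 0)) (sk 0)) (s0 (s1 (s2 (s0 (s1 (s0
    lf (sk 0)) (sk 0)) (sk 0)) (s0 (s1 (s0 lf lf) (sk 0)) (sk 0))) (sk 0)) (sk 0))))
    ⟨79228162514264527589153230029, 63331869759898, 79228162514264492404781141197,
    126663739519796, 79228162514264407962288128000, 70368744177664⟩ (by decide +kernel)

theorem AB_0 : Hd QAB 79228162514264464257283470131 126663739519796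
    79228162514264351667292785869 14073748835533 79228162514264407962288128000 70368744177664 :=
  okAB (s0 (s0 lf lf) (s0 (s2 (s0 lf lf) (s0 lf lf)) (s2 (s0 lf (s2 lf lf)) (s0 lf (s0 lf
    lf)))))
    ⟨79228162514264464257283470131, 126663739519796, 79228162514264351667292785869,
    14073748835533, 79228162514264407962288128000, 70368744177664⟩ (by decide +kernel)

theorem BA_0 : Hd QBA 79228162514264411480725336883 59813432551015 79228162514264397406976501350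
    31665934879949 79228162514264372777916039168 35184372088832 :=
  okBA (s0 (s2 (s1 (s2 (s0 (s2 (s1 (s2 (s0 lf lf) lf) (s2 (s0 lf lf) lf)) (s1 lf lf)) (s1 (s2 lf
    lf) lf)) (s1 (s0 lf lf) lf)) (s2 (s0 (s2 (s0 (s2 lf lf) lf) lf) (s2 lf lf)) (s0 lf lf))) (s1
    (s1 (s2 lf lf) lf) (s2 lf lf))) (s2 (s1 (s2 (s0 (s1 lf lf) (s1 lf lf)) (s1 (s0 lf lf) lf))
    (s0 (s2 lf lf) (s2 lf lf))) (s1 (s1 (s0 lf lf) lf) (s0 lf lf))))
    ⟨79228162514264411480725336883, 59813432551015, 79228162514264397406976501350,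
    31665934879949, 79228162514264372777916039168, 35184372088832⟩ (by decide +kernel)

theorem BA_1 : Hd QBA 79228162514264411480725336883 59813432551015 79228162514264460738846261248
    31665934879949 79228162514264372777916039168 35184372088832 :=
  okBA (s0 (s2 (s1 (s2 (s0 (s2 (s0 lf lf) lf) lf) (s0 lf lf)) (s2 (s0 (s2 (s0 lf lf) lf) lf) (s0
    lf lf))) (s1 (s2 lf lf) (s0 lf lf))) (s2 (s1 (s0 (s2 lf lf) lf) (s0 lf lf)) (s1 (s0 lf lf)
    (s0 lf lf))))
    ⟨79228162514264411480725336883, 59813432551015, 79228162514264460738846261248,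
    31665934879949, 79228162514264372777916039168, 35184372088832⟩ (by decide +kernel)

theorem BA_2 : Hd QBA 79228162514264411480725336883 59813432551015 79228162514264429072911381299
    63331869759898 79228162514264443146660216832 35184372088832 :=
  okBA (s1 (s0 (s1 (s2 (s1 lf lf) lf) (s2 lf lf)) (s1 (s2 (s1 lf lf) (s1 lf lf)) (s2 (s0 lf lf)
    lf))) (s0 (s2 (s1 lf lf) (s1 lf lf)) (s2 (s1 (s0 lf lf) (s0 lf lf)) (s1 lf lf))))
    ⟨79228162514264411480725336883, 59813432551015, 79228162514264429072911381299,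
    63331869759898, 79228162514264443146660216832, 35184372088832⟩ (by decide +kernel)

end H95FL
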