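import Pool.Agent.H95.FL.Claims

/-! Branch and bound data, generated. -/

set_option maxRecDepth 100000

namespace H95FL

open H41FT H41FT.Tr

theorem BA_3 : Hd QBA 79228162514264531107590438913 59813432551015 79228162514264397406976501350
    31665934879949 79228162514264372777916039168 35184372088832 :=
  okBA (s0 (s2 (s1 (s0 (s1 (s2 lf lf) lf) (s1 (s2 (s1 lf lf) lf) (s2 lf lf))) (s0 (s1 lf lf) (s1
    lf lf))) (s1 (s0 (s1 lf lf) (s1 lf lf)) (s0 lf lf))) (s2 (s1 (s0 (s1 (s2 (s0 lf lf) (s0 lf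
    lf)) (s2 (s0 lf lf) lf)) (s2 (s1 (s0 (s1 lf lf) (s2 (s1 lf lf) (s1 lf lf))) (s0 lf (s0 lf
    (sk 0)))) (s1 (s0 lf (s1 lf lf)) (s0 lf lf)))) (s0 (s1 (s2 lf lf) lf) (s0 (s2 (s1 lf (sk 0))
    (s1 lf (sk 0))) (sk 0)))) (s1 (s0 (s1 (s2 lf lf) lf) (s1 (s0 lf (s2 lf lf)) (s0 lf lf))) (s0
    (s1 lf lf) (s0 lf (sk 0))))))
    ⟨79228162514264531107590438913, 59813432551015, 79228162514264397406976501350,
    31665934879949, 79228162514264372777916039168, 35184372088832⟩ (by decide +kernel)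

theorem BA_4 : Hd QBA 79228162514264531107590438913 59813432551015 79228162514264460738846261248
    31665934879949 79228162514264372777916039168 35184372088832 :=
  okBA (s0 (s2 (s1 (s0 lf (s1 lf lf)) (s0 lf lf)) (s1 (s0 lf lf) (s0 lf lf))) (s2 (s0 (s1 (s0 lf
    (sk 0)) (sk 0)) (sk 0)) (s0 (s1 (s0 lf (sk 0)) (sk 0)) (sk 0))))
    ⟨79228162514264531107590438913, 59813432551015, 79228162514264460738846261248,
    31665934879949, 79228162514264372777916039168, 35184372088832⟩ (by decide +kernel)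

theorem BA_5 : Hd QBA 79228162514264531107590438913 59813432551015 79228162514264429072911381299
    63331869759898 79228162514264443146660216832 35184372088832 :=
  okBA (s1 (s0 (s1 (s2 (s0 lf (s1 lf lf)) (s0 lf lf)) (s2 (s0 lf lf) (s0 lf lf))) (s1 (s0 (s2
    (s1 lf lf) (s1 lf lf)) (s2 (s1 (s0 lf lf) (s0 lf (sk 0))) (s1 (s0 lf lf) lf))) (s0 (s2 lf
    lf) (s2 (s0 lf (sk 0)) (sk 0))))) (s0 (s2 (s1 (s0 lf lf) (s0 lf lf)) (s1 (s0 lf lf) (s0 lf
    lf))) (s2 (s0 (s1 lf (sk 0)) (sk 0)) (s0 (s1 lf (sk 0)) (sk 0)))))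
    ⟨79228162514264531107590438913, 59813432551015, 79228162514264429072911381299,
    63331869759898, 79228162514264443146660216832, 35184372088832⟩ (by decide +kernel)

theorem BA_6 : Hd QBA 79228162514264411480725336883 59813432551015 79228162514264555736650901095
    63331869759898 79228162514264372777916039168 35184372088832 :=
  okBA (s1 (s0 (s2 (s0 (s2 (s2 (s0 (s2 (s1 lf lf) lf) lf) lf) lf) (s2 (s1 lf lf) lf)) (s1 (s0 lf
    lf) (s0 lf lf))) (s2 (s1 (s0 lf lf) (s0 lf lf)) (s1 (s0 lf lf) (s0 lf lf)))) (s0 (s2 (s0 (s2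
    (s2 (s0 (s2 (s2 (s1 lf lf) lf) lf) lf) lf) lf) (s2 (s1 lf lf) lf)) (s1 (s0 lf lf) (s0 lf
    lf))) (s2 (s0 (s1 lf lf) (s1 lf lf)) (s1 (s0 lf lf) (s0 lf lf)))))
    ⟨79228162514264411480725336883, 59813432551015, 79228162514264555736650901095,
    63331869759898, 79228162514264372777916039168, 35184372088832⟩ (by decide +kernel)

theorem BA_7 : Hd QBA 79228162514264411480725336883 59813432551015 79228162514264555736650901095
    63331869759898 79228162514264443146660216832 35184372088832 :=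
  okBA (s1 (s0 (s2 (s1 (s0 lf lf) (s0 lf lf)) (s1 (s0 lf lf) (s0 lf lf))) (s2 (s1 (s0 lf lf) (s0
    lf lf)) (s1 (s0 lf lf) (s0 lf lf)))) (s0 (s2 (s1 (s0 lf lf) (s0 lf lf)) (s1 (s0 lf lf) (s0
    lf lf))) (s2 (s1 (s0 lf lf) (s0 lf lf)) (s1 (s0 lf (s2 lf lf)) (s0 lf (s2 lf lf))))))
    ⟨79228162514264411480725336883, 59813432551015, 79228162514264555736650901095,
    63331869759898, 79228162514264443146660216832, 35184372088832⟩ (by decide +kernel)

theorem BA_8 : Hd QBA 79228162514264531107590438913 59813432551015 79228162514264555736650901095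
    63331869759898 79228162514264407962288128000 70368744177664 :=
  okBA (s2 (s1 (s0 (s2 (s1 (s0 lf lf) (s0 lf (sk 0))) (s1 (s0 lf (sk 0)) (s0 lf (sk 0)))) (sk
    0)) (s0 (s2 (s1 (s0 lf (sk 0)) (s0 lf (sk 0))) (s1 (s0 lf (sk 0)) (s0 (sk 0) (sk 0)))) (sk
    0))) (s1 (s0 (s2 (s1 (s0 lf (sk 0)) (s0 lf (sk 0))) (s1 (s0 lf (sk 0)) (sk 0))) (sk 0)) (s0
    (sk 0) (sk 0))))
    ⟨79228162514264531107590438913, 59813432551015, 79228162514264555736650901095,
    63331869759898, 79228162514264407962288128000, 70368744177664⟩ (by decide +kernel)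

theorem BA_9 : Hd QBA 79228162514264411480725336883 59813432551015 79228162514264429072911381299
    63331869759898 79228162514264548699776483328 70368744177664 :=
  okBA (s2 (s1 (s0 (s1 (s2 lf lf) (s2 lf lf)) (s1 (s2 lf lf) (s2 lf lf))) (s0 (s2 (s1 lf (s0 lf
    lf)) (s1 lf (s0 lf lf))) (s2 (s1 lf (s0 lf lf)) (s1 lf (s0 lf lf))))) (s1 (s0 (s1 (s1 lf lf)
    (s2 lf lf)) (s1 (s1 lf lf) (s2 lf lf))) (s0 (s2 (s1 lf (s0 lf lf)) (s1 lf (s0 lf lf))) (s2
    (s1 lf (s0 lf lf)) (s1 lf (s0 lf lf))))))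
    ⟨79228162514264411480725336883, 59813432551015, 79228162514264429072911381299,
    63331869759898, 79228162514264548699776483328, 70368744177664⟩ (by decide +kernel)

end H95FL
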