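import Pool.Agent.H95.FL.Claims

/-! Branch and bound data, generated. -/

set_option maxRecDepth 100000

namespace H95FL

open H41FT H41FT.Tr

theorem CA_5 : Hd QCA 79228162514264534626027647796 56294995342132 79228162514264397406976501350
    31665934879949 79228162514264443146660216832 35184372088832 :=
  okCA (s0 (s1 (s2 (s0 (s1 lf lf) (s1 (s1 lf lf) lf)) (s0 (s1 lf lf) (s1 (s1 lf lf) lf))) (s2
    (s0 lf (s1 lf lf)) (s0 lf (s1 lf lf)))) (s2 (s1 (s0 (s1 (s0 lf (s1 lf lf)) (s0 lf lf)) (s1
    (s0 (s1 lf lf) (s2 (s1 lf lf) (s1 lf lf))) (s0 (s1 lf lf) (s2 lf lf)))) (s0 (s1 lf lf) (s1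
    (s0 lf (sk 0)) (s0 lf (sk 0))))) (s1 (s0 (s1 (s0 lf (s1 lf lf)) (s0 lf lf)) (s1 (s0 (s1 lf
    lf) (s1 (s2 lf lf) lf)) (s0 lf (s1 lf lf)))) (s0 (s1 lf lf) (s1 (s0 lf lf) (s0 lf (sk
    0)))))))
    ⟨79228162514264534626027647796, 56294995342132, 79228162514264397406976501350,
    31665934879949, 79228162514264443146660216832, 35184372088832⟩ (by decide +kernel)

theorem CA_6 : Hd QCA 79228162514264534626027647796 56294995342132 79228162514264460738846261248
    31665934879949 79228162514264443146660216832 35184372088832 :=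
  okCA (s0 (s1 (s2 (s0 lf lf) (s0 lf lf)) (s2 (s0 lf lf) (s0 lf lf))) (s2 (s1 (s0 (s1 lf lf) (sk
    0)) (s0 lf (sk 0))) (s1 (s0 (s1 lf lf) (s1 lf (sk 0))) (s0 lf (sk 0)))))
    ⟨79228162514264534626027647796, 56294995342132, 79228162514264460738846261248,
    31665934879949, 79228162514264443146660216832, 35184372088832⟩ (by decide +kernel)

theorem CA_7 : Hd QCA 79228162514264422036036963532 56294995342132 79228162514264555736650901095
    63331869759898 79228162514264407962288128000 70368744177664 :=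
  okCA (s2 (s1 (s0 (s0 (s0 lf lf) (s1 lf lf)) (s2 (s1 (s0 lf lf) (s0 lf lf)) (s0 (s1 lf lf) (s1
    lf lf)))) (s0 (s0 (s0 lf lf) (s1 lf lf)) (s2 (s0 lf (s1 lf lf)) (s0 lf lf)))) (s1 (s0 (s0
    (s0 lf lf) (s1 lf lf)) (s0 (s1 lf lf) (s1 lf lf))) (s0 (s0 (s0 lf lf) (s0 lf lf)) (s0 (s1 lf
    lf) (s2 lf lf)))))
    ⟨79228162514264422036036963532, 56294995342132, 79228162514264555736650901095,
    63331869759898, 79228162514264407962288128000, 70368744177664⟩ (by decide +kernel)

theorem CA_8 : Hd QCA 79228162514264534626027647796 56294995342132 79228162514264555736650901095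
    63331869759898 79228162514264407962288128000 70368744177664 :=
  okCA (s2 (s1 (s0 (s2 (s1 (s0 lf (s2 lf lf)) (s0 lf (sk 0))) (s1 (s0 lf lf) (s0 lf lf))) (sk
    0)) (s0 (s2 (s1 (s0 lf (sk 0)) (s0 lf (sk 0))) (s1 (s0 lf (sk 0)) (s0 lf (sk 0)))) (sk 0)))
    (s1 (s0 (s2 (s1 (s0 lf lf) (s0 lf lf)) (s1 lf lf)) (s2 (s1 (sk 0) (sk 0)) (s1 (s0 lf (sk 0))
    (s0 lf (sk 0))))) (s0 (s2 (s1 (s0 lf lf) (s0 lf lf)) (s1 lf lf)) (s2 (sk 0) (sk 0)))))
    ⟨79228162514264534626027647796, 56294995342132, 79228162514264555736650901095,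
    63331869759898, 79228162514264407962288128000, 70368744177664⟩ (by decide +kernel)

theorem CB_0 : Hd QCB 79228162514264422036036963532 56294995342132 79228162514264351667292785869
    14073748835533 79228162514264407962288128000 70368744177664 :=
  okCB (s2 (s0 (s0 lf lf) (s2 (s0 lf lf) (s0 lf lf))) (s0 (s0 lf lf) (s2 (s0 lf lf) (s0 lf
    lf))))
    ⟨79228162514264422036036963532, 56294995342132, 79228162514264351667292785869,
    14073748835533, 79228162514264407962288128000, 70368744177664⟩ (by decide +kernel)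

theorem CB_1 : Hd QCB 79228162514264506478529976730 28147497671066 79228162514264351667292785869
    14073748835533 79228162514264372777916039168 35184372088832 :=
  okCB (s2 (s0 (s1 lf lf) (s1 (s0 lf lf) lf)) (s0 (s1 lf lf) (s1 lf lf)))
    ⟨79228162514264506478529976730, 28147497671066, 79228162514264351667292785869,
    14073748835533, 79228162514264372777916039168, 35184372088832⟩ (by decide +kernel)

theorem CB_2 : Hd QCB 79228162514264548699776483329 14073748835533 79228162514264351667292785869
    14073748835533 79228162514264355185729994752 17592186044416 :=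
  okCB (s1 (s0 lf (s1 lf lf)) (s0 lf lf))
    ⟨79228162514264548699776483329, 14073748835533, 79228162514264351667292785869,
    14073748835533, 79228162514264355185729994752, 17592186044416⟩ (by decide +kernel)

end H95FL
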