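import Pool.Agent.H95.FL.Claims

/-! Branch and bound data, generated. -/

set_option maxRecDepth 100000

namespace H95FL

open H41FT H41FT.Tr

theorem CB_3 : Hd QCB 79228162514264576847274154395 14073748835533 79228162514264351667292785869
    14073748835533 79228162514264355185729994752 17592186044416 :=
  okCB (s1 (s0 (s2 (s1 lf lf) (s1 lf lf)) (s2 (s1 (s0 lf lf) lf) (s1 (s0 lf lf) lf))) (s0 (s2 lf
    lf) (s2 (s0 lf lf) (s1 lf lf))))
    ⟨79228162514264576847274154395, 14073748835533, 79228162514264351667292785869,
    14073748835533, 79228162514264355185729994752, 17592186044416⟩ (by decide +kernel)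

theorem CB_4 : Hd QCB 79228162514264562773525318862 28147497671066 79228162514264351667292785869
    14073748835533 79228162514264390370102083584 17592186044416 :=
  okCB (s0 (s1 (s0 lf (s1 lf lf)) (s0 lf lf)) (s1 (s0 (s1 (s2 lf lf) lf) (s2 (s1 (s0 lf lf) lf)
    (s1 (s0 lf lf) lf))) (s0 (s2 lf lf) (s2 (s1 lf lf) lf))))
    ⟨79228162514264562773525318862, 28147497671066, 79228162514264351667292785869,
    14073748835533, 79228162514264390370102083584, 17592186044416⟩ (by decide +kernel)

theorem CB_5 : Hd QCB 79228162514264506478529976730 28147497671066 79228162514264351667292785869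
    14073748835533 79228162514264443146660216832 35184372088832 :=
  okCB (s2 (s0 (s1 lf lf) (s1 lf lf)) (s0 lf (s1 lf lf)))
    ⟨79228162514264506478529976730, 28147497671066, 79228162514264351667292785869,
    14073748835533, 79228162514264443146660216832, 35184372088832⟩ (by decide +kernel)

theorem CB_6 : Hd QCB 79228162514264562773525318862 28147497671066 79228162514264351667292785869
    14073748835533 79228162514264425554474172416 17592186044416 :=
  okCB (s0 (s1 (s0 lf (s1 lf lf)) (s0 lf lf)) (s1 (s0 (s1 (s1 lf lf) lf) (s1 (s2 (s0 lf lf) (s1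
    lf lf)) (s2 lf lf))) (s0 lf (s2 lf lf))))
    ⟨79228162514264562773525318862, 28147497671066, 79228162514264351667292785869,
    14073748835533, 79228162514264425554474172416, 17592186044416⟩ (by decide +kernel)

theorem CB_7 : Hd QCB 79228162514264562773525318862 28147497671066 79228162514264351667292785869
    14073748835533 79228162514264460738846261248 17592186044416 :=
  okCB (s0 (s1 (s0 lf (s1 lf lf)) lf) (s1 (s0 (s1 (s1 lf lf) lf) (s1 (s2 (s1 lf lf) (s1 lf lf))
    (s0 lf lf))) (s0 lf (s1 lf lf))))
    ⟨79228162514264562773525318862, 28147497671066, 79228162514264351667292785869,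
    14073748835533, 79228162514264460738846261248, 17592186044416⟩ (by decide +kernel)

end H95FL
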