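import Pool.Agent.H95.FL.Claims

/-! Branch and bound data, generated. -/

set_option maxRecDepth 100000

namespace H95FL

open H41FT H41FT.Tr

theorem CC_0 : Hd QCC 79228162514264351667292785869 14073748835533 79228162514264492404781141197
    126663739519796 79228162514264407962288128000 70368744177664 :=
  okCC (s1 (s1 (s2 (s1 lf lf) (s1 lf lf)) (s2 (s1 lf lf) (s1 lf lf))) (s2 (s1 (s1 lf lf) (s1 lf
    lf)) (s1 (s1 lf lf) (s1 lf lf))))
    ⟨79228162514264351667292785869, 14073748835533, 79228162514264492404781141197,
    126663739519796, 79228162514264407962288128000, 70368744177664⟩ (by decide +kernel)

theorem CD_0 : Hd QCD 79228162514264351667292785869 14073748835533 79228162514264351667292785869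
    14073748835533 79228162514264407962288128000 70368744177664 :=
  okCD lf
    ⟨79228162514264351667292785869, 14073748835533, 79228162514264351667292785869,
    14073748835533, 79228162514264407962288128000, 70368744177664⟩ (by decide +kernel)

theorem SA_0 : Hd QSA 79228162514264351667292785869 14073748835533 79228162514264351667292785869
    14073748835533 79228162514264351667292785869 14073748835533 :=
  okSA (s1 lf lf)
    ⟨79228162514264351667292785869, 14073748835533, 79228162514264351667292785869,
    14073748835533, 79228162514264351667292785869, 14073748835533⟩ (by decide +kernel)

theorem SB_0 : Hd QSB 79228162514264351667292785869 14073748835533 79228162514264351667292785869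
    14073748835533 79228162514264351667292785869 14073748835533 :=
  okSB (s0 lf lf)
    ⟨79228162514264351667292785869, 14073748835533, 79228162514264351667292785869,
    14073748835533, 79228162514264351667292785869, 14073748835533⟩ (by decide +kernel)

theorem SC_0 : Hd QSC 79228162514264351667292785869 14073748835533 79228162514264351667292785869
    14073748835533 79228162514264351667292785869 14073748835533 :=
  okSC lf
    ⟨79228162514264351667292785869, 14073748835533, 79228162514264351667292785869,
    14073748835533, 79228162514264351667292785869, 14073748835533⟩ (by decide +kernel)

theorem SD_0 : Hd QSD 79228162514264351667292785869 14073748835533 79228162514264351667292785869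
    14073748835533 79228162514264351667292785869 14073748835533 :=
  okSD (s2 lf lf)
    ⟨79228162514264351667292785869, 14073748835533, 79228162514264351667292785869,
    14073748835533, 79228162514264351667292785869, 14073748835533⟩ (by decide +kernel)

end H95FL
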