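import Pool.Agent.H95.FL.Claims

/-! Branch and bound data, generated. -/

set_option maxRecDepth 100000

namespace H95FL

open H41FT H41FT.Tr

theorem SE_0 : Hd QSE 79228162514264351667292785869 14073748835533 79228162514264351667292785869
    14073748835533 79228162514264351667292785869 14073748835533 :=
  okSE lf
    ⟨79228162514264351667292785869, 14073748835533, 79228162514264351667292785869,
    14073748835533, 79228162514264351667292785869, 14073748835533⟩ (by decide +kernel)

theorem SF_0 : Hd QSF 79228162514264351667292785869 14073748835533 79228162514264351667292785869
    14073748835533 79228162514264351667292785869 14073748835533 :=
  okSF (s0 lf lf)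
    ⟨79228162514264351667292785869, 14073748835533, 79228162514264351667292785869,
    14073748835533, 79228162514264351667292785869, 14073748835533⟩ (by decide +kernel)

theorem SG_0 : Hd QSG 79228162514264351667292785869 14073748835533 79228162514264351667292785869
    14073748835533 79228162514264351667292785869 14073748835533 :=
  okSG lf
    ⟨79228162514264351667292785869, 14073748835533, 79228162514264351667292785869,
    14073748835533, 79228162514264351667292785869, 14073748835533⟩ (by decide +kernel)

theorem SH_0 : Hd QSH 79228162514264351667292785869 14073748835533 79228162514264351667292785869
    14073748835533 79228162514264351667292785869 14073748835533 :=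
  okSH (s2 lf lf)
    ⟨79228162514264351667292785869, 14073748835533, 79228162514264351667292785869,
    14073748835533, 79228162514264351667292785869, 14073748835533⟩ (by decide +kernel)

theorem SI_0 : Hd QSI 79228162514264351667292785869 14073748835533 79228162514264351667292785869
    14073748835533 79228162514264351667292785869 14073748835533 :=
  okSI (s1 lf lf)
    ⟨79228162514264351667292785869, 14073748835533, 79228162514264351667292785869,
    14073748835533, 79228162514264351667292785869, 14073748835533⟩ (by decide +kernel)

theorem TA_0 : Hd QTA 79228162514264351667292785869 14073748835533 79228162514264351667292785869
    14073748835533 79228162514264351667292785869 14073748835533 :=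
  okTA lf
    ⟨79228162514264351667292785869, 14073748835533, 79228162514264351667292785869,
    14073748835533, 79228162514264351667292785869, 14073748835533⟩ (by decide +kernel)

theorem TB_0 : Hd QTB 79228162514264351667292785869 14073748835533 79228162514264351667292785869
    14073748835533 79228162514264351667292785869 14073748835533 :=
  okTB lf
    ⟨79228162514264351667292785869, 14073748835533, 79228162514264351667292785869,
    14073748835533, 79228162514264351667292785869, 14073748835533⟩ (by decide +kernel)

theorem TC_0 : Hd QTC 79228162514264351667292785869 14073748835533 79228162514264351667292785869
    14073748835533 79228162514264351667292785869 14073748835533 :=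
  okTC lf
    ⟨79228162514264351667292785869, 14073748835533, 79228162514264351667292785869,
    14073748835533, 79228162514264351667292785869, 14073748835533⟩ (by decide +kernel)

end H95FL
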